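import Mathlib

/-!
Local to global principle: a positive C² function on a connected open set, vanishing on the frontier,
whose power is locally concave, has a convex domain and is globally power concave.
(Part (5) of the counterexample project for MP_61eda3_an.)
-/

set_option autoImplicit false

open Set Filter Topology

namespace Pool.Agent.Lin3

variable {E : Type*} [NormedAddCommGroup E] [NormedSpace ℝ E]

/-- second derivative of a power along a segment -/
theorem concaveOn_segment {O : Set E} {U : E → ℝ} {α : ℝ} (hα : 0 < α)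
    (hO : IsOpen O) (hU : ContDiffOn ℝ 2 U O) (hpos : ∀ x ∈ O, 0 < U x)
    (hineq : ∀ x ∈ O, ∀ h : E,
      U x * fderiv ℝ (fderiv ℝ U) x h h ≤ (1 - α) * (fderiv ℝ U x h) ^ 2)
    {x y : E} (hseg : ∀ t ∈ Icc (0 : ℝ) 1, x + t • (y - x) ∈ O) :
    ConcaveOn ℝ (Icc (0 : ℝ) 1) (fun t => U (x + t • (y - x)) ^ α) := by
  set v : E := y - x with hv
  have hγ : ∀ t : ℝ, HasDerivAt (fun t : ℝ => x + t • v) v t := by
    intro t
    have h1 : HasDerivAt (fun t : ℝ => t • v) ((1 : ℝ) • v) t :=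
      (hasDerivAt_id t).smul_const v
    rw [one_smul] at h1
    exact h1.const_add x
  have hd1 : ∀ z ∈ O, DifferentiableAt ℝ U z := by
    intro z hz
    exact (hU.differentiableOn (by norm_num)).differentiableAt (hO.mem_nhds hz)
  have hd2 : ∀ z ∈ O, DifferentiableAt ℝ (fderiv ℝ U) z := by
    intro z hz
    have h1 : ContDiffOn ℝ 1 (fderiv ℝ U) O := hU.fderiv_of_isOpen hO (by norm_num)
    exact (h1.differentiableOn (by norm_num)).differentiableAt (hO.mem_nhds hz)
  have hU1 : ∀ t ∈ Icc (0 : ℝ) 1,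
      HasDerivAt (fun t : ℝ => U (x + t • v)) (fderiv ℝ U (x + t • v) v) t := by
    intro t ht
    exact (hd1 _ (hseg t ht)).hasFDerivAt.comp_hasDerivAt t (hγ t)
  have hU2 : ∀ t ∈ Icc (0 : ℝ) 1,
      HasDerivAt (fun t : ℝ => fderiv ℝ U (x + t • v) v)
        (fderiv ℝ (fderiv ℝ U) (x + t • v) v v) t := by
    intro t ht
    have h1 : HasDerivAt (fun t : ℝ => fderiv ℝ U (x + t • v))
        (fderiv ℝ (fderiv ℝ U) (x + t • v) v) t :=
      (hd2 _ (hseg t ht)).hasFDerivAt.comp_hasDerivAt t (hγ t)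
    have h2 := h1.clm_apply (hasDerivAt_const t v)
    simpa using h2
  have hsub : interior (Icc (0 : ℝ) 1) ⊆ Icc (0 : ℝ) 1 := interior_subset
  refine concaveOn_of_hasDerivWithinAt2_nonpos (convex_Icc 0 1)
    (f' := fun t => fderiv ℝ U (x + t • v) v * α * (U (x + t • v)) ^ (α - 1))
    (f'' := fun t => fderiv ℝ (fderiv ℝ U) (x + t • v) v v * α * (U (x + t • v)) ^ (α - 1) +
      fderiv ℝ U (x + t • v) v * α *
        (fderiv ℝ U (x + t • v) v * (α - 1) * (U (x + t • v)) ^ (α - 1 - 1))) ?_ ?_ ?_ ?_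
  · intro t ht
    exact ((hU1 t ht).continuousAt.rpow_const (Or.inr hα.le)).continuousWithinAt
  · intro t ht
    exact ((hU1 t (hsub ht)).rpow_const (Or.inl (hpos _ (hseg t (hsub ht))).ne')).hasDerivWithinAt
  · intro t ht
    have h1 := (hU2 t (hsub ht)).mul_const α
    have h2 := (hU1 t (hsub ht)).rpow_const (p := α - 1)
      (Or.inl (hpos _ (hseg t (hsub ht))).ne')
    exact (h1.mul h2).hasDerivWithinAt
  · intro t ht
    have hp := hpos _ (hseg t (hsub ht))
    have hi := hineq _ (hseg t (hsub ht)) v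
    have e1 : (U (x + t • v)) ^ (α - 1) = U (x + t • v) * (U (x + t • v)) ^ (α - 1 - 1) := by
      rw [Real.rpow_sub_one hp.ne' (α - 1)]
      field_simp
    have e2 : 0 < (U (x + t • v)) ^ (α - 1 - 1) := Real.rpow_pos_of_pos hp _
    set a := U (x + t • v)
    set b := fderiv ℝ U (x + t • v) v
    set c := fderiv ℝ (fderiv ℝ U) (x + t • v) v v
    rw [e1]
    set w := a ^ (α - 1 - 1)
    have : c * α * (a * w) + b * α * (b * (α - 1) * w) = (α * w) * (a * c - (1 - α) * b ^ 2) := by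
      ring
    rw [this]
    exact mul_nonpos_of_nonneg_of_nonpos (mul_nonneg hα.le e2.le) (by linarith)

/-- the power of `U` at a point of a segment contained in `O` is at least the convex combination -/
theorem rpow_segment_le {O : Set E} {U : E → ℝ} {α : ℝ} (hα : 0 < α)
    (hO : IsOpen O) (hU : ContDiffOn ℝ 2 U O) (hpos : ∀ x ∈ O, 0 < U x)
    (hineq : ∀ x ∈ O, ∀ h : E,
      U x * fderiv ℝ (fderiv ℝ U) x h h ≤ (1 - α) * (fderiv ℝ U x h) ^ 2)
    {x y : E} (hseg : ∀ t ∈ Icc (0 : ℝ) 1, x + t • (y - x) ∈ O) {t : ℝ} (ht : t ∈ Icc (0 : ℝ) 1) :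
    (1 - t) * U x ^ α + t * U y ^ α ≤ U (x + t • (y - x)) ^ α := by
  have h := (concaveOn_segment hα hO hU hpos hineq hseg).2
    (show (0 : ℝ) ∈ Icc (0 : ℝ) 1 by simp) (show (1 : ℝ) ∈ Icc (0 : ℝ) 1 by simp)
    (show (0 : ℝ) ≤ 1 - t by linarith [ht.2]) ht.1 (by ring)
  simpa using h

/-- The set of pairs whose segment lies in an open set is open. -/
theorem isOpen_segPairs {O : Set E} (hO : IsOpen O) :
    IsOpen {p : E × E | ∀ t ∈ Icc (0 : ℝ) 1, p.1 + t • (p.2 - p.1) ∈ O} := by
  have hcont : Continuous (fun q : (E × E) × ℝ => q.1.1 + q.2 • (q.1.2 - q.1.1)) := by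
    fun_prop
  have hpre : IsOpen ((fun q : (E × E) × ℝ => q.1.1 + q.2 • (q.1.2 - q.1.1)) ⁻¹' O) :=
    hO.preimage hcont
  rw [isOpen_iff_mem_nhds]
  intro p hp
  have hK : IsCompact (Icc (0 : ℝ) 1) := isCompact_Icc
  have := (isCompact_singleton (x := p)).prod hK
  obtain ⟨A, B, hA, hB, hpA, hKB, hAB⟩ := generalized_tube_lemma (isCompact_singleton (x := p)) hK
    hpre (by
      rintro ⟨a, b⟩ ⟨ha, hb⟩
      have ha' : a = p := ha
      subst ha'
      exact hp b hb)
  refine Filter.mem_of_superset (hA.mem_nhds (hpA rfl)) ?_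
  intro q hq t ht
  exact hAB (show (q, t) ∈ A ×ˢ B from ⟨hq, hKB ht⟩)

/-- Local to global. -/
theorem localGlobal {O : Set E} {U : E → ℝ} {α : ℝ} (hα : 0 < α)
    (hO : IsOpen O) (hconn : IsPreconnected O)
    (hU : ContDiffOn ℝ 2 U O) (hUc : ContinuousOn U (closure O))
    (hpos : ∀ x ∈ O, 0 < U x) (hfr : ∀ x ∈ frontier O, U x = 0)
    (hineq : ∀ x ∈ O, ∀ h : E,
      U x * fderiv ℝ (fderiv ℝ U) x h h ≤ (1 - α) * (fderiv ℝ U x h) ^ 2) :
    Convex ℝ O ∧ ConcaveOn ℝ O (fun x => U x ^ α) := by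
  set S : Set (E × E) := {p : E × E | ∀ t ∈ Icc (0 : ℝ) 1, p.1 + t • (p.2 - p.1) ∈ O} with hS
  have hSO : IsOpen S := isOpen_segPairs hO
  have hkey : O ×ˢ O ⊆ S := by
    rcases O.eq_empty_or_nonempty with h0 | ⟨x0, hx0⟩
    · rw [h0]; simp
    refine (hconn.prod hconn).subset_of_closure_inter_subset hSO ⟨(x0, x0), ⟨hx0, hx0⟩, ?_⟩ ?_
    · intro t _
      simpa using hx0
    rintro ⟨x, y⟩ ⟨hcl, hx, hy⟩ t ht
    change x ∈ O at hx
    change y ∈ O at hy
    change x + t • (y - x) ∈ O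
    rw [mem_closure_iff_clusterPt, clusterPt_iff_nonempty] at hcl
    -- work with the filter 𝓝 (x, y) ⊓ 𝓟 S
    have hne : (𝓝 (x, y) ⊓ 𝓟 S).NeBot := by
      rw [← clusterPt_iff_nonempty] at hcl
      exact hcl
    set F : Filter (E × E) := 𝓝 (x, y) ⊓ 𝓟 S with hF
    have hFx : Tendsto (fun p : E × E => p.1) F (𝓝 x) :=
      (continuous_fst.tendsto (x, y)).mono_left inf_le_left
    have hFy : Tendsto (fun p : E × E => p.2) F (𝓝 y) :=
      (continuous_snd.tendsto (x, y)).mono_left inf_le_left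
    have hFz : Tendsto (fun p : E × E => p.1 + t • (p.2 - p.1)) F (𝓝 (x + t • (y - x))) :=
      hFx.add ((hFy.sub hFx).const_smul t)
    have hSF : ∀ᶠ p in F, p ∈ S := mem_inf_of_right (mem_principal_self S)
    have hzO : ∀ᶠ p in F, p.1 + t • (p.2 - p.1) ∈ O := by
      filter_upwards [hSF] with p hp
      exact hp t ht
    have hzcl : x + t • (y - x) ∈ closure O :=
      mem_closure_of_tendsto hFz hzO
    have hUx : Tendsto (fun p : E × E => U p.1 ^ α) F (𝓝 (U x ^ α)) := by
      have h1 : ContinuousAt U x := (hUc.mono subset_closure).continuousAt (hO.mem_nhds hx)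
      exact ((h1.tendsto.comp hFx).rpow_const (Or.inr hα.le))
    have hUy : Tendsto (fun p : E × E => U p.2 ^ α) F (𝓝 (U y ^ α)) := by
      have h1 : ContinuousAt U y := (hUc.mono subset_closure).continuousAt (hO.mem_nhds hy)
      exact ((h1.tendsto.comp hFy).rpow_const (Or.inr hα.le))
    have hUz : Tendsto (fun p : E × E => U (p.1 + t • (p.2 - p.1)) ^ α) F
        (𝓝 (U (x + t • (y - x)) ^ α)) := by
      have h1 : Tendsto U (𝓝[closure O] (x + t • (y - x))) (𝓝 (U (x + t • (y - x)))) :=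
        hUc _ hzcl
      have h2 : Tendsto (fun p : E × E => p.1 + t • (p.2 - p.1)) F
          (𝓝[closure O] (x + t • (y - x))) := by
        rw [tendsto_nhdsWithin_iff]
        refine ⟨hFz, ?_⟩
        filter_upwards [hzO] with p hp
        exact subset_closure hp
      exact (h1.comp h2).rpow_const (Or.inr hα.le)
    have hle : (1 - t) * U x ^ α + t * U y ^ α ≤ U (x + t • (y - x)) ^ α := by
      refine le_of_tendsto_of_tendsto ((hUx.const_mul (1 - t)).add (hUy.const_mul t)) hUz ?_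
      filter_upwards [hSF] with p hp
      exact rpow_segment_le hα hO hU hpos hineq hp ht
    have hposz : 0 < U (x + t • (y - x)) ^ α := by
      refine lt_of_lt_of_le ?_ hle
      have hx' : 0 < U x ^ α := Real.rpow_pos_of_pos (hpos x hx) _
      have hy' : 0 < U y ^ α := Real.rpow_pos_of_pos (hpos y hy) _
      rcases eq_or_lt_of_le ht.1 with h0 | h0
      · rw [← h0]; simpa using hx'
      · have : 0 ≤ (1 - t) * U x ^ α := mul_nonneg (by linarith [ht.2]) hx'.le
        have : 0 < t * U y ^ α := mul_pos h0 hy'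
        linarith
    by_contra hno
    have hfz : x + t • (y - x) ∈ frontier O := by
      rw [hO.frontier_eq]
      exact ⟨hzcl, hno⟩
    rw [hfr _ hfz, Real.zero_rpow hα.ne'] at hposz
    exact lt_irrefl _ hposz
  have hconv : Convex ℝ O := by
    intro x hx y hy a b ha hb hab
    have h := hkey (show (x, y) ∈ O ×ˢ O from ⟨hx, hy⟩) b ⟨hb, by linarith⟩
    have e : a • x + b • y = x + b • (y - x) := by
      have : a = 1 - b := by linarith
      rw [this]
      module
    rw [e]
    exact h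
  refine ⟨hconv, hconv, ?_⟩
  intro x hx y hy a b ha hb hab
  have h := rpow_segment_le hα hO hU hpos hineq
    (hkey (show (x, y) ∈ O ×ˢ O from ⟨hx, hy⟩)) (t := b) ⟨hb, by linarith⟩
  have e : a • x + b • y = x + b • (y - x) := by
    have : a = 1 - b := by linarith
    rw [this]
    module
  have ha' : a = 1 - b := by linarith
  change a * U x ^ α + b * U y ^ α ≤ U (a • x + b • y) ^ α
  rw [e, ha']
  exact h

end Pool.Agent.Lin3
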